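import Mathlib

set_option autoImplicit false

/-!
# Leapfrog jumps: moving one piece by twice the lattice of differences of the others
-/

namespace Q137.Leap

open Function

variable {V : Type*} [AddCommGroup V] [Module ℝ V]

/-- a jump: piece `i` leaps over piece `j` -/
def Jump {ι : Type*} [DecidableEq ι] (p q : ι → V) : Prop :=
  ∃ i j, i ≠ j ∧ q = Function.update p i ((2:ℝ) • p j - p i)

/-- finitely many jumps -/
def Reach {ι : Type*} [DecidableEq ι] : (ι → V) → (ι → V) → Prop :=
  Relation.ReflTransGen Jump

theorem jump_symm {ι : Type*} [DecidableEq ι] {p q : ι → V} (h : Jump p q) : Jump q p := by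
  obtain ⟨i, j, hij, rfl⟩ := h
  refine ⟨i, j, hij, ?_⟩
  rw [update_idem, update_of_ne hij.symm, update_self]
  have : (2:ℝ) • p j - ((2:ℝ) • p j - p i) = p i := by abel
  rw [this, update_eq_self]

theorem reach_symm {ι : Type*} [DecidableEq ι] {p q : ι → V} (h : Reach p q) : Reach q p := by
  induction h with
  | refl => exact Relation.ReflTransGen.refl
  | tail _ hbc ih => exact Relation.ReflTransGen.head (jump_symm hbc) ih

/-- the set of differences of the pieces other than `i` -/
def diffs {ι : Type*} (p : ι → V) (i : ι) : Set V :=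
  {w | ∃ a b, a ≠ i ∧ b ≠ i ∧ w = p a - p b}

theorem diffs_update {ι : Type*} [DecidableEq ι] (p : ι → V) (i : ι) (z : V) :
    diffs (Function.update p i z) i = diffs p i := by
  ext w
  constructor
  · rintro ⟨a, b, ha, hb, rfl⟩
    exact ⟨a, b, ha, hb, by rw [update_of_ne ha, update_of_ne hb]⟩
  · rintro ⟨a, b, ha, hb, rfl⟩
    exact ⟨a, b, ha, hb, by rw [update_of_ne ha, update_of_ne hb]⟩

theorem move_two {ι : Type*} [DecidableEq ι] (p : ι → V) {i a b : ι} (ha : a ≠ i) (hb : b ≠ i) :
    Reach p (Function.update p i (p i + (2:ℝ) • (p a - p b))) := by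
  refine Relation.ReflTransGen.tail (b := Function.update p i ((2:ℝ) • p b - p i))
    (Relation.ReflTransGen.single ⟨i, b, hb.symm, rfl⟩) ?_
  refine ⟨i, a, ha.symm, ?_⟩
  rw [update_idem, update_of_ne ha, update_self]
  congr 1
  rw [smul_sub]
  abel

theorem move_closure {ι : Type*} [DecidableEq ι] (p : ι → V) (i : ι) {w : V}
    (hw : w ∈ AddSubgroup.closure (diffs p i)) :
    ∀ z : V, Reach (Function.update p i z) (Function.update p i (z + (2:ℝ) • w)) := by
  induction hw using AddSubgroup.closure_induction with
  | mem x hx =>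
    intro z
    obtain ⟨a, b, ha, hb, rfl⟩ := hx
    have := move_two (Function.update p i z) ha hb
    rwa [update_idem, update_of_ne ha, update_of_ne hb, update_self] at this
  | zero =>
    intro z
    rw [smul_zero, add_zero]
    exact Relation.ReflTransGen.refl
  | add x y _ _ hx hy =>
    intro z
    have h1 := hx z
    have h2 := hy (z + (2:ℝ) • x)
    rw [smul_add, ← add_assoc]
    exact h1.trans h2
  | neg x _ hx =>
    intro z
    have h1 := hx (z + (2:ℝ) • (-x))
    apply reach_symm
    convert h1 using 2
    rw [smul_neg]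
    abel

theorem move_to {ι : Type*} [DecidableEq ι] (p : ι → V) (i : ι) {w z : V}
    (hw : w ∈ AddSubgroup.closure (diffs p i)) (hz : z = p i + (2:ℝ) • w) :
    Reach p (Function.update p i z) := by
  have := move_closure p i hw (p i)
  rwa [update_eq_self, ← hz] at this

/-- intermediate configurations: the pieces `(i, true)` start at `v i`, the pieces `(i, false)`
start at `-v i`; the pieces `(i, true)` with `i < k₁` and `(i, false)` with `i < k₂` have been
scaled by `c` -/
def conf {m : ℕ} (v : Fin m → V) (c : ℝ) (k₁ k₂ : ℕ) : Fin m × Bool → V := fun x =>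
  if x.2 = true then (if (x.1 : ℕ) < k₁ then c • v x.1 else v x.1)
  else (if (x.1 : ℕ) < k₂ then -(c • v x.1) else -v x.1)

theorem conf_succ₁ {m : ℕ} (v : Fin m → V) (c : ℝ) (k : Fin m) (k₂ : ℕ) :
    conf v c (k + 1) k₂ = Function.update (conf v c k k₂) (k, true) (c • v k) := by
  ext ⟨i, b⟩
  by_cases h : ((i, b) : Fin m × Bool) = (k, true)
  · rw [h, update_self]
    simp [conf]
  · rw [update_of_ne h]
    cases b
    · simp [conf]
    · have hik : i ≠ k := fun h' => h (by rw [h'])
      have hik' : (i : ℕ) ≠ k := fun h' => hik (Fin.ext h')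
      simp only [conf, if_true]
      have : (i : ℕ) < k + 1 ↔ (i : ℕ) < k := by omega
      simp only [this]

theorem conf_succ₂ {m : ℕ} (v : Fin m → V) (c : ℝ) (k₁ : ℕ) (k : Fin m) :
    conf v c k₁ (k + 1) = Function.update (conf v c k₁ k) (k, false) (-(c • v k)) := by
  ext ⟨i, b⟩
  by_cases h : ((i, b) : Fin m × Bool) = (k, false)
  · rw [h, update_self]
    simp [conf]
  · rw [update_of_ne h]
    cases b
    · have hik : i ≠ k := fun h' => h (by rw [h'])
      have hik' : (i : ℕ) ≠ k := fun h' => hik (Fin.ext h')
      have : (i : ℕ) < k + 1 ↔ (i : ℕ) < k := by omega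
      simp [conf, this]
    · simp [conf]

/-- the two-phase enlargement -/
theorem enlarge {m : ℕ} (v : Fin m → V) (c : ℝ)
    (h₁ : ∀ k : Fin m, ((c - 1) / 2) • v k ∈
      AddSubgroup.closure (diffs (conf v c k 0) (k, true)))
    (h₂ : ∀ k : Fin m, -(((c - 1) / 2) • v k) ∈
      AddSubgroup.closure (diffs (conf v c m k) (k, false))) :
    Reach (conf v c 0 0) (conf v c m m) := by
  have s₁ : ∀ k ≤ m, Reach (conf v c 0 0) (conf v c k 0) := by
    intro k
    induction k with
    | zero => intro _; exact Relation.ReflTransGen.refl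
    | succ k ih =>
      intro hk
      refine (ih (by omega)).trans ?_
      have := conf_succ₁ v c ⟨k, hk⟩ 0
      simp only at this
      rw [this]
      apply move_to _ _ (h₁ ⟨k, hk⟩)
      simp only [conf, if_true, lt_irrefl, if_false]
      rw [smul_smul]
      have : 2 * ((c - 1) / 2) = c - 1 := by ring
      rw [this, sub_smul, one_smul]
      abel
  have s₂ : ∀ k ≤ m, Reach (conf v c m 0) (conf v c m k) := by
    intro k
    induction k with
    | zero => intro _; exact Relation.ReflTransGen.refl
    | succ k ih =>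
      intro hk
      refine (ih (by omega)).trans ?_
      have := conf_succ₂ v c m ⟨k, hk⟩
      simp only at this
      rw [this]
      apply move_to _ _ (h₂ ⟨k, hk⟩)
      simp only [conf, lt_irrefl, if_false, Bool.false_eq_true]
      rw [smul_neg, smul_smul]
      have : 2 * ((c - 1) / 2) = c - 1 := by ring
      rw [this, sub_smul, one_smul]
      abel
  exact (s₁ m le_rfl).trans (s₂ m le_rfl)

/-! ### differences available in the intermediate configurations -/

section avail

variable {m : ℕ} (v : Fin m → V) (c : ℝ)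

theorem neg_diff_mem (k₁ : ℕ) (k j l : Fin m) :
    v j - v l ∈ AddSubgroup.closure (diffs (conf v c k₁ 0) (k, true)) := by
  apply AddSubgroup.subset_closure
  refine ⟨(l, false), (j, false), by simp, by simp, ?_⟩
  simp [conf]
  abel

theorem pos_diff_mem (k₂ : ℕ) (k j l : Fin m) :
    c • v j - c • v l ∈ AddSubgroup.closure (diffs (conf v c m k₂) (k, false)) := by
  apply AddSubgroup.subset_closure
  refine ⟨(j, true), (l, true), by simp, by simp, ?_⟩
  simp [conf]

end avail

/-- if twice the vectors are available in all intermediate configurations, scaling by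
`9 + 4 √5` is possible -/
theorem enlarge_of_two {m : ℕ} (v : Fin m → V)
    (hR : ∀ k, √5 • v k ∈ AddSubgroup.closure (Set.range v))
    (h₁ : ∀ k j : Fin m, (2:ℝ) • v j ∈
      AddSubgroup.closure (diffs (conf v (9 + 4 * √5) k 0) (k, true)))
    (h₂ : ∀ k j : Fin m, (2:ℝ) • (((9:ℝ) + 4 * √5) • v j) ∈
      AddSubgroup.closure (diffs (conf v (9 + 4 * √5) m k) (k, false))) :
    Reach (conf v (9 + 4 * √5) 0 0) (conf v (9 + 4 * √5) m m) := by
  have h5 : √5 * √5 = 5 := Real.mul_self_sqrt (by norm_num)
  have key₁ : ∀ k : Fin m, ∀ x ∈ AddSubgroup.closure (Set.range v), (2:ℝ) • x ∈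
      AddSubgroup.closure (diffs (conf v (9 + 4 * √5) k 0) (k, true)) := by
    intro k x hx
    induction hx using AddSubgroup.closure_induction with
    | mem x hx => obtain ⟨j, rfl⟩ := hx; exact h₁ k j
    | zero => rw [smul_zero]; exact zero_mem _
    | add x y _ _ hx hy => rw [smul_add]; exact add_mem hx hy
    | neg x _ hx => rw [smul_neg]; exact neg_mem hx
  have key₂ : ∀ k : Fin m, ∀ x ∈ AddSubgroup.closure (Set.range v),
      (2:ℝ) • (((9:ℝ) + 4 * √5) • x) ∈
      AddSubgroup.closure (diffs (conf v (9 + 4 * √5) m k) (k, false)) := by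
    intro k x hx
    induction hx using AddSubgroup.closure_induction with
    | mem x hx => obtain ⟨j, rfl⟩ := hx; exact h₂ k j
    | zero => rw [smul_zero, smul_zero]; exact zero_mem _
    | add x y _ _ hx hy => rw [smul_add, smul_add]; exact add_mem hx hy
    | neg x _ hx => rw [smul_neg, smul_neg]; exact neg_mem hx
  have hv : ∀ k, v k ∈ AddSubgroup.closure (Set.range v) :=
    fun k => AddSubgroup.subset_closure ⟨k, rfl⟩
  apply enlarge
  · intro k
    have h := key₁ k (v k + v k + √5 • v k) (add_mem (add_mem (hv k) (hv k)) (hR k))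
    convert h using 1
    module
  · intro k
    have h := key₂ k (v k + v k - √5 • v k) (sub_mem (add_mem (hv k) (hv k)) (hR k))
    convert h using 1
    have e : -(((9:ℝ) + 4 * √5 - 1) / 2) = 2 * ((9 + 4 * √5) * (2 - √5)) := by
      linear_combination (8 : ℝ) * h5
    rw [← neg_smul, e]
    module

/-- reindexing -/
theorem reach_reindex {ι κ : Type*} [DecidableEq ι] [DecidableEq κ] (e : ι ≃ κ) {p q : ι → V}
    (h : Reach p q) : Reach (p ∘ e.symm) (q ∘ e.symm) := by
  induction h with
  | refl => exact Relation.ReflTransGen.refl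
  | tail _ hs ih =>
    refine ih.tail ?_
    obtain ⟨i, j, hij, rfl⟩ := hs
    refine ⟨e i, e j, fun h => hij (e.injective h), ?_⟩
    ext k
    by_cases hk : k = e i
    · subst hk
      simp
    · have : e.symm k ≠ i := fun h => hk (by rw [← h, e.apply_symm_apply])
      simp [Function.update_of_ne hk, Function.update_of_ne this]

end Q137.Leap
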