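import Mathlib
import Pool.Agent.Q137.Leap.Basic

set_option autoImplicit false

/-!
# The two reachability statements in terms of the module relations
-/

namespace Q137.Leap

open Function

variable {V : Type*} [AddCommGroup V] [Module ℝ V]

/-- relations between the vertex vectors of the icosahedron -/
structure IcoRel (v : Fin 6 → V) : Prop where
  r0 : √5 • v 0 = v 1 + v 2 + v 3 + v 4 - v 5
  r1 : √5 • v 1 = v 0 - v 2 - v 3 + v 4 - v 5
  r2 : √5 • v 2 = v 0 - v 1 + v 3 + v 4 + v 5
  r3 : √5 • v 3 = v 0 - v 1 + v 2 - v 4 - v 5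
  r4 : √5 • v 4 = v 0 + v 1 + v 2 - v 3 + v 5
  r5 : √5 • v 5 = -v 0 - v 1 + v 2 - v 3 + v 4

/-- relations between the vertex vectors of the dodecahedron -/
structure DodRel (v : Fin 10 → V) : Prop where
  r0 : √5 • v 0 = v 4 + v 5 + v 6
  r1 : √5 • v 1 = v 5 + v 7 - v 9
  r2 : √5 • v 2 = v 6 - v 7 + v 8
  r3 : √5 • v 3 = -v 4 + v 8 - v 9
  r4 : √5 • v 4 = v 0 - v 3 - v 7
  r5 : √5 • v 5 = v 0 + v 1 - v 8
  r6 : √5 • v 6 = v 0 + v 2 - v 9
  r7 : √5 • v 7 = v 1 - v 2 - v 4
  r8 : √5 • v 8 = v 2 + v 3 - v 5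
  r9 : √5 • v 9 = -v 1 - v 3 - v 6
  rel : v 0 + v 5 + v 2 - v 8 - v 4 - v 7 = v 0 + v 0

theorem five : √5 * √5 = 5 := Real.mul_self_sqrt (by norm_num)

theorem dod_reach (v : Fin 10 → V) (h : DodRel v) :
    Reach (conf v (9 + 4 * √5) 0 0) (conf v (9 + 4 * √5) 10 10) := by
  have hv : ∀ k, v k ∈ AddSubgroup.closure (Set.range v) :=
    fun k => AddSubgroup.subset_closure ⟨k, rfl⟩
  apply enlarge_of_two
  · intro k
    fin_cases k
    · simp only [Fin.zero_eta, Fin.isValue]
      rw [h.r0]
      exact add_mem (add_mem (hv _) (hv _)) (hv _)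
    · simp only [Fin.mk_one, Fin.isValue]
      rw [h.r1]
      exact sub_mem (add_mem (hv _) (hv _)) (hv _)
    · simp only [Fin.reduceFinMk, Fin.isValue]
      rw [h.r2]
      exact add_mem (sub_mem (hv _) (hv _)) (hv _)
    · simp only [Fin.reduceFinMk, Fin.isValue]
      rw [h.r3]
      exact sub_mem (add_mem (neg_mem (hv _)) (hv _)) (hv _)
    · simp only [Fin.reduceFinMk, Fin.isValue]
      rw [h.r4]
      exact sub_mem (sub_mem (hv _) (hv _)) (hv _)
    · simp only [Fin.reduceFinMk, Fin.isValue]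
      rw [h.r5]
      exact sub_mem (add_mem (hv _) (hv _)) (hv _)
    · simp only [Fin.reduceFinMk, Fin.isValue]
      rw [h.r6]
      exact sub_mem (add_mem (hv _) (hv _)) (hv _)
    · simp only [Fin.reduceFinMk, Fin.isValue]
      rw [h.r7]
      exact sub_mem (sub_mem (hv _) (hv _)) (hv _)
    · simp only [Fin.reduceFinMk, Fin.isValue]
      rw [h.r8]
      exact sub_mem (add_mem (hv _) (hv _)) (hv _)
    · simp only [Fin.reduceFinMk, Fin.isValue]
      rw [h.r9]
      exact sub_mem (sub_mem (neg_mem (hv _)) (hv _)) (hv _)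
  · intro k j
    set G := AddSubgroup.closure (diffs (conf v (9 + 4 * √5) k 0) (k, true)) with hG
    have hd : ∀ a b, v a - v b ∈ G := fun a b => neg_diff_mem v (9 + 4 * √5) k k a b
    have h0 : (2:ℝ) • v j = (v j - v 0) + (v j - v 0) + ((v 0 - v 4) + (v 5 - v 8) +
        (v 2 - v 7)) := by
      have := h.rel
      have e : (v 0 - v 4) + (v 5 - v 8) + (v 2 - v 7) =
          v 0 + v 5 + v 2 - v 8 - v 4 - v 7 := by abel
      rw [e, this]
      module
    rw [h0]
    exact add_mem (add_mem (hd _ _) (hd _ _)) (add_mem (add_mem (hd _ _) (hd _ _)) (hd _ _))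
  · intro k j
    set c : ℝ := 9 + 4 * √5 with hc
    set G := AddSubgroup.closure (diffs (conf v c 10 k) (k, false)) with hG
    have hd : ∀ a b, c • v a - c • v b ∈ G := fun a b => pos_diff_mem v c k k a b
    have h0 : (2:ℝ) • (c • v j) = (c • v j - c • v 0) + (c • v j - c • v 0) +
        ((c • v 0 - c • v 4) + (c • v 5 - c • v 8) + (c • v 2 - c • v 7)) := by
      have := h.rel
      have e : (c • v 0 - c • v 4) + (c • v 5 - c • v 8) + (c • v 2 - c • v 7) =
          c • (v 0 + v 5 + v 2 - v 8 - v 4 - v 7) := by module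
      rw [e, this]
      module
    rw [h0]
    exact add_mem (add_mem (hd _ _) (hd _ _)) (add_mem (add_mem (hd _ _) (hd _ _)) (hd _ _))

theorem ico_reach (v : Fin 6 → V) (h : IcoRel v) :
    Reach (conf v (9 + 4 * √5) 0 0) (conf v (9 + 4 * √5) 6 6) := by
  have hv : ∀ k, v k ∈ AddSubgroup.closure (Set.range v) :=
    fun k => AddSubgroup.subset_closure ⟨k, rfl⟩
  apply enlarge_of_two
  · intro k
    fin_cases k
    · simp only [Fin.zero_eta, Fin.isValue]
      rw [h.r0]
      exact sub_mem (add_mem (add_mem (add_mem (hv _) (hv _)) (hv _)) (hv _)) (hv _)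
    · simp only [Fin.mk_one, Fin.isValue]
      rw [h.r1]
      exact sub_mem (add_mem (sub_mem (sub_mem (hv _) (hv _)) (hv _)) (hv _)) (hv _)
    · simp only [Fin.reduceFinMk, Fin.isValue]
      rw [h.r2]
      exact add_mem (add_mem (add_mem (sub_mem (hv _) (hv _)) (hv _)) (hv _)) (hv _)
    · simp only [Fin.reduceFinMk, Fin.isValue]
      rw [h.r3]
      exact sub_mem (sub_mem (add_mem (sub_mem (hv _) (hv _)) (hv _)) (hv _)) (hv _)
    · simp only [Fin.reduceFinMk, Fin.isValue]
      rw [h.r4]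
      exact add_mem (sub_mem (add_mem (add_mem (hv _) (hv _)) (hv _)) (hv _)) (hv _)
    · simp only [Fin.reduceFinMk, Fin.isValue]
      rw [h.r5]
      exact add_mem (sub_mem (add_mem (sub_mem (neg_mem (hv _)) (hv _)) (hv _)) (hv _)) (hv _)
  · intro k j
    set c : ℝ := 9 + 4 * √5 with hc
    set G := AddSubgroup.closure (diffs (conf v c k 0) (k, true)) with hG
    have hd : ∀ a b, v a - v b ∈ G := fun a b => neg_diff_mem v c k k a b
    by_cases hk : (k : ℕ) < 5
    · -- the piece `(k + 1, true)` has not been moved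
      obtain ⟨l, hl⟩ : ∃ l : Fin 6, (l : ℕ) = k + 1 := ⟨⟨k + 1, by omega⟩, rfl⟩
      have hlk : l ≠ k := fun h' => by rw [h'] at hl; omega
      have h1 : v l + v j ∈ G := by
        apply AddSubgroup.subset_closure
        refine ⟨(l, true), (j, false), by simp [hlk], by simp, ?_⟩
        have : ¬ (l : ℕ) < k := by omega
        simp [conf, this]
      have h2 : (2:ℝ) • v j = (v l + v j) - (v l - v j) := by module
      rw [h2]
      exact sub_mem h1 (hd _ _)
    · have hk5 : (k : ℕ) = 5 := by omega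
      have hk5' : k = 5 := Fin.ext hk5
      have h1 : ∀ l : Fin 6, l ≠ 5 → c • v l + v j ∈ G := by
        intro l hl
        apply AddSubgroup.subset_closure
        refine ⟨(l, true), (j, false), by simp [hk5', hl], by simp, ?_⟩
        have : (l : ℕ) < k := by
          have : (l : ℕ) ≠ 5 := fun h' => hl (Fin.ext h')
          omega
        simp [conf, this]
      have h10 := h1 0 (by decide)
      have h11 := h1 1 (by decide)
      have e0 : c • v 0 = (9:ℝ) • v 0 + (4:ℝ) • (v 1 + v 2 + v 3 + v 4 - v 5) := by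
        rw [← h.r0, hc]; module
      have e1 : c • v 1 = (9:ℝ) • v 1 + (4:ℝ) • (v 0 - v 2 - v 3 + v 4 - v 5) := by
        rw [← h.r1, hc]; module
      have h2 : (2:ℝ) • v j = (4:ℤ) • (c • v 1 + v j) - (c • v 0 + v j) +
          ((-7:ℤ) • (v 0 - v j) + (-32:ℤ) • (v 1 - v j) + (20:ℤ) • (v 2 - v j) +
            (20:ℤ) • (v 3 - v j) + (-12:ℤ) • (v 4 - v j) + (12:ℤ) • (v 5 - v j)) := by
        rw [e0, e1]
        module
      rw [h2]
      exact add_mem (sub_mem (zsmul_mem h11 _) h10)
        (add_mem (add_mem (add_mem (add_mem (add_mem (zsmul_mem (hd _ _) _)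
          (zsmul_mem (hd _ _) _)) (zsmul_mem (hd _ _) _)) (zsmul_mem (hd _ _) _))
          (zsmul_mem (hd _ _) _)) (zsmul_mem (hd _ _) _))
  · intro k j
    set c : ℝ := 9 + 4 * √5 with hc
    set G := AddSubgroup.closure (diffs (conf v c 6 k) (k, false)) with hG
    have hd : ∀ a b, c • v a - c • v b ∈ G := fun a b => pos_diff_mem v c k k a b
    by_cases hk : (k : ℕ) = 0
    · -- the piece `(2, false)` has not been moved
      have hk' : k ≠ 2 := fun h' => by rw [h'] at hk; exact absurd hk (by decide)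
      have h1 : c • v j + v 2 ∈ G := by
        apply AddSubgroup.subset_closure
        refine ⟨(j, true), (2, false), by simp, by simp [hk'.symm], ?_⟩
        simp [conf, hk]
      have e2 : v 2 = (9:ℝ) • (c • v 2) -
          (4:ℝ) • (c • (v 0 - v 1 + v 3 + v 4 + v 5)) := by
        rw [← h.r2, smul_smul, smul_smul, smul_smul, ← sub_smul]
        have : 9 * c - 4 * c * √5 = 1 := by
          rw [hc]
          linear_combination (-16 : ℝ) * five
        rw [this, one_smul]
      have h2 : (2:ℝ) • (c • v j) = -(c • v j + v 2) +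
          ((9:ℤ) • (c • v 2 - c • v j) + (-4:ℤ) • (c • v 0 - c • v j) +
            (4:ℤ) • (c • v 1 - c • v j) + (-4:ℤ) • (c • v 3 - c • v j) +
            (-4:ℤ) • (c • v 4 - c • v j) + (-4:ℤ) • (c • v 5 - c • v j)) := by
        have e3 : -(c • v j + v 2) = -(c • v j) - ((9:ℝ) • (c • v 2) -
          (4:ℝ) • (c • (v 0 - v 1 + v 3 + v 4 + v 5))) := by
          rw [← e2]; abel
        rw [e3]
        module
      rw [h2]
      exact add_mem (neg_mem h1) (add_mem (add_mem (add_mem (add_mem (add_mem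
        (zsmul_mem (hd _ _) _) (zsmul_mem (hd _ _) _)) (zsmul_mem (hd _ _) _))
        (zsmul_mem (hd _ _) _)) (zsmul_mem (hd _ _) _)) (zsmul_mem (hd _ _) _))
    · have hk' : k ≠ 0 := fun h' => by rw [h'] at hk; exact hk rfl
      have h1 : c • v j + c • v 0 ∈ G := by
        apply AddSubgroup.subset_closure
        refine ⟨(j, true), (0, false), by simp, by simp [hk'.symm], ?_⟩
        have : 0 < (k : ℕ) := Nat.pos_of_ne_zero hk
        simp [conf, this]
      have h2 : (2:ℝ) • (c • v j) = (c • v j + c • v 0) + (c • v j - c • v 0) := by module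
      rw [h2]
      exact add_mem h1 (hd _ _)

end Q137.Leap
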