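import Mathlib
import Pool.Agent.Q137.Leap.Solids

set_option autoImplicit false

/-!
# Coordinates of the icosahedron and the dodecahedron
-/

namespace Q137.Leap

open Function Real

/-- space -/
abbrev E3 := EuclideanSpace ℝ (Fin 3)

/-- realization of integer codes: the pair `(a, b)` stands for `a + b φ` -/
noncomputable def real : (Fin 3 → ℤ × ℤ) →+ E3 where
  toFun w := WithLp.toLp 2 (fun i => ((w i).1 : ℝ) + ((w i).2 : ℝ) * goldenRatio)
  map_zero' := by
    ext i; simp
  map_add' u w := by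
    ext i
    simp only [Pi.add_apply, Prod.fst_add, Prod.snd_add, PiLp.add_apply]
    push_cast
    ring

theorem real_apply (w : Fin 3 → ℤ × ℤ) (i : Fin 3) :
    real w i = ((w i).1 : ℝ) + ((w i).2 : ℝ) * goldenRatio := rfl

theorem real_injective : Function.Injective real := by
  intro u w h
  funext i
  have hi : real u i = real w i := by rw [h]
  rw [real_apply, real_apply] at hi
  have h1 : (((u i).1 - (w i).1 : ℤ) : ℝ) + (((u i).2 - (w i).2 : ℤ) : ℝ) * goldenRatio = 0 := by
    push_cast; linarith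
  by_cases h2 : (u i).2 - (w i).2 = 0
  · rw [h2] at h1
    simp only [Int.cast_zero, zero_mul, add_zero] at h1
    have h3 : (u i).1 - (w i).1 = 0 := by exact_mod_cast h1
    exact Prod.ext (by omega) (by omega)
  · exfalso
    have h3 := (goldenRatio_irrational.intCast_mul h2).intCast_add ((u i).1 - (w i).1)
    rw [h1] at h3
    exact h3 ⟨0, by simp⟩

/-- multiplication by `√5` on codes -/
def s5 (w : Fin 3 → ℤ × ℤ) : Fin 3 → ℤ × ℤ :=
  fun i => (-(w i).1 + 2 * (w i).2, 2 * (w i).1 + (w i).2)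

theorem real_s5 (w : Fin 3 → ℤ × ℤ) : √5 • real w = real (s5 w) := by
  ext i
  rw [PiLp.smul_apply, real_apply, real_apply, smul_eq_mul]
  have h5 : √5 = 2 * goldenRatio - 1 := by unfold goldenRatio; ring
  have h2 := goldenRatio_sq
  rw [h5]
  simp only [s5]
  push_cast
  linear_combination (2 * ((w i).2 : ℝ)) * h2

/-- codes of the vertices of the icosahedron, up to sign -/
def icoZ : Fin 6 → Fin 3 → ℤ × ℤ :=
  ![![(0, 0), (1, 0), (0, 1)],
    ![(0, 0), (-1, 0), (0, 1)],
    ![(1, 0), (0, 1), (0, 0)],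
    ![(-1, 0), (0, 1), (0, 0)],
    ![(0, 1), (0, 0), (1, 0)],
    ![(0, 1), (0, 0), (-1, 0)]]

/-- codes of the vertices of the dodecahedron, up to sign -/
def dodZ : Fin 10 → Fin 3 → ℤ × ℤ :=
  ![![(1, 0), (1, 0), (1, 0)],
    ![(1, 0), (1, 0), (-1, 0)],
    ![(1, 0), (-1, 0), (1, 0)],
    ![(1, 0), (-1, 0), (-1, 0)],
    ![(0, 0), (-1, 1), (0, 1)],
    ![(-1, 1), (0, 1), (0, 0)],
    ![(0, 1), (0, 0), (-1, 1)],
    ![(0, 0), (-1, 1), (0, -1)],
    ![(-1, 1), (0, -1), (0, 0)],
    ![(0, -1), (0, 0), (-1, 1)]]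

/-- vertex vectors of the icosahedron -/
noncomputable def icoV (k : Fin 6) : E3 := real (icoZ k)

/-- vertex vectors of the dodecahedron -/
noncomputable def dodV (k : Fin 10) : E3 := real (dodZ k)

theorem ico_rel : IcoRel icoV where
  r0 := by
    unfold icoV; rw [real_s5, ← map_add, ← map_add, ← map_add, ← map_sub]; congr 1
    decide
  r1 := by
    unfold icoV; rw [real_s5, ← map_sub, ← map_sub, ← map_add, ← map_sub]; congr 1
    decide
  r2 := by
    unfold icoV; rw [real_s5, ← map_sub, ← map_add, ← map_add, ← map_add]; congr 1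
    decide
  r3 := by
    unfold icoV; rw [real_s5, ← map_sub, ← map_add, ← map_sub, ← map_sub]; congr 1
    decide
  r4 := by
    unfold icoV; rw [real_s5, ← map_add, ← map_add, ← map_sub, ← map_add]; congr 1
    decide
  r5 := by
    unfold icoV; rw [real_s5, ← map_neg, ← map_sub, ← map_add, ← map_sub, ← map_add]; congr 1
    decide

theorem dod_rel : DodRel dodV where
  r0 := by
    unfold dodV; rw [real_s5, ← map_add, ← map_add]; congr 1
    decide
  r1 := by
    unfold dodV; rw [real_s5, ← map_add, ← map_sub]; congr 1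
    decide
  r2 := by
    unfold dodV; rw [real_s5, ← map_sub, ← map_add]; congr 1
    decide
  r3 := by
    unfold dodV; rw [real_s5, ← map_neg, ← map_add, ← map_sub]; congr 1
    decide
  r4 := by
    unfold dodV; rw [real_s5, ← map_sub, ← map_sub]; congr 1
    decide
  r5 := by
    unfold dodV; rw [real_s5, ← map_add, ← map_sub]; congr 1
    decide
  r6 := by
    unfold dodV; rw [real_s5, ← map_add, ← map_sub]; congr 1
    decide
  r7 := by
    unfold dodV; rw [real_s5, ← map_sub, ← map_sub]; congr 1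
    decide
  r8 := by
    unfold dodV; rw [real_s5, ← map_add, ← map_sub]; congr 1
    decide
  r9 := by
    unfold dodV; rw [real_s5, ← map_neg, ← map_sub, ← map_sub]; congr 1
    decide
  rel := by
    unfold dodV
    rw [← map_add, ← map_add, ← map_sub, ← map_sub, ← map_sub, ← map_add]; congr 1
    decide

/-- initial labelled configuration -/
def init {V : Type*} [AddCommGroup V] {m : ℕ} (v : Fin m → V) : Fin m × Bool → V :=
  fun x => if x.2 = true then v x.1 else -v x.1

theorem conf_zero {V : Type*} [AddCommGroup V] [Module ℝ V] {m : ℕ} (v : Fin m → V) (c : ℝ) :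
    conf v c 0 0 = init v := by
  ext x
  simp [conf, init]

theorem conf_top {V : Type*} [AddCommGroup V] [Module ℝ V] {m : ℕ} (v : Fin m → V) (c : ℝ) :
    conf v c m m = fun x => c • init v x := by
  ext x
  obtain ⟨i, b⟩ := x
  cases b <;> simp [conf, init]

theorem ico_init_injective : Function.Injective (init icoV) := by
  have h : init icoV = fun x => real (init icoZ x) := by
    ext x
    obtain ⟨i, b⟩ := x
    cases b <;> simp [init, icoV]
  rw [h]
  exact real_injective.comp (by decide)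

theorem dod_init_injective : Function.Injective (init dodV) := by
  have h : init dodV = fun x => real (init dodZ x) := by
    ext x
    obtain ⟨i, b⟩ := x
    cases b <;> simp [init, dodV]
  rw [h]
  exact real_injective.comp (by decide)

theorem inv_phi : goldenRatio⁻¹ = goldenRatio - 1 := by
  rw [inv_goldenRatio]
  linarith [goldenRatio_add_goldenConj]

/-- vertices of the icosahedron -/
def icosahedron : Set E3 :=
  {v | ∃ a b : ℝ, (a = 1 ∨ a = -1) ∧ (b = goldenRatio ∨ b = -goldenRatio) ∧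
    (v = !₂[0, a, b] ∨ v = !₂[a, b, 0] ∨ v = !₂[b, 0, a])}

/-- vertices of the dodecahedron -/
def dodecahedron : Set E3 :=
  {v | (∃ a b c : ℝ, (a = 1 ∨ a = -1) ∧ (b = 1 ∨ b = -1) ∧ (c = 1 ∨ c = -1) ∧ v = !₂[a, b, c]) ∨
    ∃ a b : ℝ, (a = goldenRatio⁻¹ ∨ a = -goldenRatio⁻¹) ∧
      (b = goldenRatio ∨ b = -goldenRatio) ∧
      (v = !₂[0, a, b] ∨ v = !₂[a, b, 0] ∨ v = !₂[b, 0, a])}

theorem ico_range : Set.range (init icoV) = icosahedron := by
  ext v
  constructor
  · rintro ⟨⟨k, b⟩, rfl⟩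
    fin_cases k <;> cases b
    · refine ⟨-1, -goldenRatio, Or.inr rfl, Or.inr rfl, Or.inl ?_⟩
      ext i; fin_cases i <;> simp [init, icoV, icoZ, real_apply]
    · refine ⟨1, goldenRatio, Or.inl rfl, Or.inl rfl, Or.inl ?_⟩
      ext i; fin_cases i <;> simp [init, icoV, icoZ, real_apply]
    · refine ⟨1, -goldenRatio, Or.inl rfl, Or.inr rfl, Or.inl ?_⟩
      ext i; fin_cases i <;> simp [init, icoV, icoZ, real_apply]
    · refine ⟨-1, goldenRatio, Or.inr rfl, Or.inl rfl, Or.inl ?_⟩
      ext i; fin_cases i <;> simp [init, icoV, icoZ, real_apply]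
    · refine ⟨-1, -goldenRatio, Or.inr rfl, Or.inr rfl, Or.inr (Or.inl ?_)⟩
      ext i; fin_cases i <;> simp [init, icoV, icoZ, real_apply]
    · refine ⟨1, goldenRatio, Or.inl rfl, Or.inl rfl, Or.inr (Or.inl ?_)⟩
      ext i; fin_cases i <;> simp [init, icoV, icoZ, real_apply]
    · refine ⟨1, -goldenRatio, Or.inl rfl, Or.inr rfl, Or.inr (Or.inl ?_)⟩
      ext i; fin_cases i <;> simp [init, icoV, icoZ, real_apply]
    · refine ⟨-1, goldenRatio, Or.inr rfl, Or.inl rfl, Or.inr (Or.inl ?_)⟩
      ext i; fin_cases i <;> simp [init, icoV, icoZ, real_apply]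
    · refine ⟨-1, -goldenRatio, Or.inr rfl, Or.inr rfl, Or.inr (Or.inr ?_)⟩
      ext i; fin_cases i <;> simp [init, icoV, icoZ, real_apply]
    · refine ⟨1, goldenRatio, Or.inl rfl, Or.inl rfl, Or.inr (Or.inr ?_)⟩
      ext i; fin_cases i <;> simp [init, icoV, icoZ, real_apply]
    · refine ⟨1, -goldenRatio, Or.inl rfl, Or.inr rfl, Or.inr (Or.inr ?_)⟩
      ext i; fin_cases i <;> simp [init, icoV, icoZ, real_apply]
    · refine ⟨-1, goldenRatio, Or.inr rfl, Or.inl rfl, Or.inr (Or.inr ?_)⟩
      ext i; fin_cases i <;> simp [init, icoV, icoZ, real_apply]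
  · rintro ⟨a, b, rfl | rfl, rfl | rfl, rfl | rfl | rfl⟩
    · refine ⟨(0, true), ?_⟩
      ext i; fin_cases i <;> simp [init, icoV, icoZ, real_apply]
    · refine ⟨(2, true), ?_⟩
      ext i; fin_cases i <;> simp [init, icoV, icoZ, real_apply]
    · refine ⟨(4, true), ?_⟩
      ext i; fin_cases i <;> simp [init, icoV, icoZ, real_apply]
    · refine ⟨(1, false), ?_⟩
      ext i; fin_cases i <;> simp [init, icoV, icoZ, real_apply]
    · refine ⟨(3, false), ?_⟩
      ext i; fin_cases i <;> simp [init, icoV, icoZ, real_apply]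
    · refine ⟨(5, false), ?_⟩
      ext i; fin_cases i <;> simp [init, icoV, icoZ, real_apply]
    · refine ⟨(1, true), ?_⟩
      ext i; fin_cases i <;> simp [init, icoV, icoZ, real_apply]
    · refine ⟨(3, true), ?_⟩
      ext i; fin_cases i <;> simp [init, icoV, icoZ, real_apply]
    · refine ⟨(5, true), ?_⟩
      ext i; fin_cases i <;> simp [init, icoV, icoZ, real_apply]
    · refine ⟨(0, false), ?_⟩
      ext i; fin_cases i <;> simp [init, icoV, icoZ, real_apply]
    · refine ⟨(2, false), ?_⟩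
      ext i; fin_cases i <;> simp [init, icoV, icoZ, real_apply]
    · refine ⟨(4, false), ?_⟩
      ext i; fin_cases i <;> simp [init, icoV, icoZ, real_apply]

theorem dod_range : Set.range (init dodV) = dodecahedron := by
  ext v
  constructor
  · rintro ⟨⟨k, b⟩, rfl⟩
    fin_cases k <;> cases b
    · refine Or.inl ⟨-1, -1, -1, Or.inr rfl, Or.inr rfl, Or.inr rfl, ?_⟩
      ext i; fin_cases i <;> simp [init, dodV, dodZ, real_apply]
    · refine Or.inl ⟨1, 1, 1, Or.inl rfl, Or.inl rfl, Or.inl rfl, ?_⟩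
      ext i; fin_cases i <;> simp [init, dodV, dodZ, real_apply]
    · refine Or.inl ⟨-1, -1, 1, Or.inr rfl, Or.inr rfl, Or.inl rfl, ?_⟩
      ext i; fin_cases i <;> simp [init, dodV, dodZ, real_apply]
    · refine Or.inl ⟨1, 1, -1, Or.inl rfl, Or.inl rfl, Or.inr rfl, ?_⟩
      ext i; fin_cases i <;> simp [init, dodV, dodZ, real_apply]
    · refine Or.inl ⟨-1, 1, -1, Or.inr rfl, Or.inl rfl, Or.inr rfl, ?_⟩
      ext i; fin_cases i <;> simp [init, dodV, dodZ, real_apply]
    · refine Or.inl ⟨1, -1, 1, Or.inl rfl, Or.inr rfl, Or.inl rfl, ?_⟩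
      ext i; fin_cases i <;> simp [init, dodV, dodZ, real_apply]
    · refine Or.inl ⟨-1, 1, 1, Or.inr rfl, Or.inl rfl, Or.inl rfl, ?_⟩
      ext i; fin_cases i <;> simp [init, dodV, dodZ, real_apply]
    · refine Or.inl ⟨1, -1, -1, Or.inl rfl, Or.inr rfl, Or.inr rfl, ?_⟩
      ext i; fin_cases i <;> simp [init, dodV, dodZ, real_apply]
    · refine Or.inr ⟨-goldenRatio⁻¹, -goldenRatio, Or.inr rfl, Or.inr rfl, Or.inl ?_⟩
      rw [inv_phi]
      ext i; fin_cases i <;> simp [init, dodV, dodZ, real_apply] <;> ring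
    · refine Or.inr ⟨goldenRatio⁻¹, goldenRatio, Or.inl rfl, Or.inl rfl, Or.inl ?_⟩
      rw [inv_phi]
      ext i; fin_cases i <;> simp [init, dodV, dodZ, real_apply] <;> ring
    · refine Or.inr ⟨-goldenRatio⁻¹, -goldenRatio, Or.inr rfl, Or.inr rfl, Or.inr (Or.inl ?_)⟩
      rw [inv_phi]
      ext i; fin_cases i <;> simp [init, dodV, dodZ, real_apply] <;> ring
    · refine Or.inr ⟨goldenRatio⁻¹, goldenRatio, Or.inl rfl, Or.inl rfl, Or.inr (Or.inl ?_)⟩
      rw [inv_phi]
      ext i; fin_cases i <;> simp [init, dodV, dodZ, real_apply] <;> ring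
    · refine Or.inr ⟨-goldenRatio⁻¹, -goldenRatio, Or.inr rfl, Or.inr rfl, Or.inr (Or.inr ?_)⟩
      rw [inv_phi]
      ext i; fin_cases i <;> simp [init, dodV, dodZ, real_apply] <;> ring
    · refine Or.inr ⟨goldenRatio⁻¹, goldenRatio, Or.inl rfl, Or.inl rfl, Or.inr (Or.inr ?_)⟩
      rw [inv_phi]
      ext i; fin_cases i <;> simp [init, dodV, dodZ, real_apply] <;> ring
    · refine Or.inr ⟨-goldenRatio⁻¹, goldenRatio, Or.inr rfl, Or.inl rfl, Or.inl ?_⟩
      rw [inv_phi]
      ext i; fin_cases i <;> simp [init, dodV, dodZ, real_apply] <;> ring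
    · refine Or.inr ⟨goldenRatio⁻¹, -goldenRatio, Or.inl rfl, Or.inr rfl, Or.inl ?_⟩
      rw [inv_phi]
      ext i; fin_cases i <;> simp [init, dodV, dodZ, real_apply] <;> ring
    · refine Or.inr ⟨-goldenRatio⁻¹, goldenRatio, Or.inr rfl, Or.inl rfl, Or.inr (Or.inl ?_)⟩
      rw [inv_phi]
      ext i; fin_cases i <;> simp [init, dodV, dodZ, real_apply] <;> ring
    · refine Or.inr ⟨goldenRatio⁻¹, -goldenRatio, Or.inl rfl, Or.inr rfl, Or.inr (Or.inl ?_)⟩
      rw [inv_phi]
      ext i; fin_cases i <;> simp [init, dodV, dodZ, real_apply] <;> ring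
    · refine Or.inr ⟨-goldenRatio⁻¹, goldenRatio, Or.inr rfl, Or.inl rfl, Or.inr (Or.inr ?_)⟩
      rw [inv_phi]
      ext i; fin_cases i <;> simp [init, dodV, dodZ, real_apply] <;> ring
    · refine Or.inr ⟨goldenRatio⁻¹, -goldenRatio, Or.inl rfl, Or.inr rfl, Or.inr (Or.inr ?_)⟩
      rw [inv_phi]
      ext i; fin_cases i <;> simp [init, dodV, dodZ, real_apply] <;> ring
  · rintro (⟨a, b, c, rfl | rfl, rfl | rfl, rfl | rfl, rfl⟩ |
      ⟨a, b, rfl | rfl, rfl | rfl, rfl | rfl | rfl⟩)
    · refine ⟨(0, true), ?_⟩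
      ext i; fin_cases i <;> simp [init, dodV, dodZ, real_apply]
    · refine ⟨(1, true), ?_⟩
      ext i; fin_cases i <;> simp [init, dodV, dodZ, real_apply]
    · refine ⟨(2, true), ?_⟩
      ext i; fin_cases i <;> simp [init, dodV, dodZ, real_apply]
    · refine ⟨(3, true), ?_⟩
      ext i; fin_cases i <;> simp [init, dodV, dodZ, real_apply]
    · refine ⟨(3, false), ?_⟩
      ext i; fin_cases i <;> simp [init, dodV, dodZ, real_apply]
    · refine ⟨(2, false), ?_⟩
      ext i; fin_cases i <;> simp [init, dodV, dodZ, real_apply]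
    · refine ⟨(1, false), ?_⟩
      ext i; fin_cases i <;> simp [init, dodV, dodZ, real_apply]
    · refine ⟨(0, false), ?_⟩
      ext i; fin_cases i <;> simp [init, dodV, dodZ, real_apply]
    · refine ⟨(4, true), ?_⟩
      rw [inv_phi]
      ext i; fin_cases i <;> simp [init, dodV, dodZ, real_apply] <;> ring
    · refine ⟨(5, true), ?_⟩
      rw [inv_phi]
      ext i; fin_cases i <;> simp [init, dodV, dodZ, real_apply] <;> ring
    · refine ⟨(6, true), ?_⟩
      rw [inv_phi]
      ext i; fin_cases i <;> simp [init, dodV, dodZ, real_apply] <;> ring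
    · refine ⟨(7, true), ?_⟩
      rw [inv_phi]
      ext i; fin_cases i <;> simp [init, dodV, dodZ, real_apply] <;> ring
    · refine ⟨(8, true), ?_⟩
      rw [inv_phi]
      ext i; fin_cases i <;> simp [init, dodV, dodZ, real_apply] <;> ring
    · refine ⟨(9, true), ?_⟩
      rw [inv_phi]
      ext i; fin_cases i <;> simp [init, dodV, dodZ, real_apply] <;> ring
    · refine ⟨(7, false), ?_⟩
      rw [inv_phi]
      ext i; fin_cases i <;> simp [init, dodV, dodZ, real_apply] <;> ring
    · refine ⟨(8, false), ?_⟩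
      rw [inv_phi]
      ext i; fin_cases i <;> simp [init, dodV, dodZ, real_apply] <;> ring
    · refine ⟨(9, false), ?_⟩
      rw [inv_phi]
      ext i; fin_cases i <;> simp [init, dodV, dodZ, real_apply] <;> ring
    · refine ⟨(4, false), ?_⟩
      rw [inv_phi]
      ext i; fin_cases i <;> simp [init, dodV, dodZ, real_apply] <;> ring
    · refine ⟨(5, false), ?_⟩
      rw [inv_phi]
      ext i; fin_cases i <;> simp [init, dodV, dodZ, real_apply] <;> ring
    · refine ⟨(6, false), ?_⟩
      rw [inv_phi]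
      ext i; fin_cases i <;> simp [init, dodV, dodZ, real_apply] <;> ring

end Q137.Leap
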