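import Mathlib
import Pool.Agent.Q137.Leap.Coords

set_option autoImplicit false

/-!
# Enlarging similar copies
-/

namespace Q137.Leap

open Function Real

/-- a similarity commutes with point reflections and is affine -/
theorem sim_affine {τ : E3 → E3} {s : ℝ} (hs : 0 < s) (hτ : ∀ x y, dist (τ x) (τ y) = s * dist x y) :
    ∃ A : E3 →ᵃ[ℝ] E3, ∀ x, τ x = A x := by
  have hiso : Isometry (fun x => s⁻¹ • τ x) := by
    apply Isometry.of_dist_eq
    intro x y
    rw [dist_smul₀, hτ, Real.norm_of_nonneg (by positivity)]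
    field_simp
  set B := hiso.affineIsometryOfStrictConvexSpace with hB
  refine ⟨(AffineMap.homothety (0 : E3) s).comp B.toAffineMap, fun x => ?_⟩
  have h1 : B x = s⁻¹ • τ x := rfl
  simp only [AffineMap.comp_apply, AffineIsometry.coe_toAffineMap, AffineMap.homothety_apply,
    vsub_eq_sub, sub_zero, vadd_eq_add, add_zero]
  rw [h1, smul_smul, mul_inv_cancel₀ hs.ne', one_smul]

theorem affine_refl (A : E3 →ᵃ[ℝ] E3) (x y : E3) :
    A ((2:ℝ) • y - x) = (2:ℝ) • A y - A x := by
  have h1 : (2:ℝ) • y - x = AffineMap.lineMap x y (2:ℝ) := by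
    rw [AffineMap.lineMap_apply]
    simp only [vsub_eq_sub, vadd_eq_add]
    module
  rw [h1, AffineMap.apply_lineMap, AffineMap.lineMap_apply]
  simp only [vsub_eq_sub, vadd_eq_add]
  module

theorem affine_scale (A : E3 →ᵃ[ℝ] E3) (c : ℝ) (x : E3) :
    A (c • x) = A 0 + c • (A x - A 0) := by
  have h1 : c • x = AffineMap.lineMap (0 : E3) x c := by
    rw [AffineMap.lineMap_apply]
    simp
  rw [h1, AffineMap.apply_lineMap, AffineMap.lineMap_apply]
  simp only [vsub_eq_sub, vadd_eq_add]
  abel

theorem reach_map {ι : Type*} [DecidableEq ι] (A : E3 →ᵃ[ℝ] E3) {p q : ι → E3}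
    (h : Reach p q) : Reach (fun i => A (p i)) (fun i => A (q i)) := by
  induction h with
  | refl => exact Relation.ReflTransGen.refl
  | tail _ hs ih =>
    refine ih.tail ?_
    obtain ⟨i, j, hij, rfl⟩ := hs
    refine ⟨i, j, hij, ?_⟩
    ext k
    by_cases hk : k = i
    · subst hk
      simp only [update_self, affine_refl]
    · simp only [update_of_ne hk]

open Classical in
/-- the enlargement of a similar copy of a centrally symmetric vertex set -/
theorem enlarge_copy {m : ℕ} (v : Fin m → E3) (hinj : Function.Injective (init v)) {c : ℝ}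
    (hc : 1 < c) (hreach : Reach (conf v c 0 0) (conf v c m m))
    {τ : E3 → E3} {s : ℝ} (hs : 0 < s) (hτ : ∀ x y, dist (τ x) (τ y) = s * dist x y)
    {W : Set E3} (hW : Set.range (init v) = W) :
    ∃ q : (τ '' W : Set E3) → E3,
      Reach (fun w : (τ '' W : Set E3) => (w : E3)) q ∧ Function.Injective q ∧
      ∃ (σ : E3 → E3) (r : ℝ), 1 < r ∧ (∀ x y, dist (σ x) (σ y) = r * dist x y) ∧
        Set.range q = σ '' (τ '' W) := by
  obtain ⟨A, hA⟩ := sim_affine hs hτ
  have hτinj : Function.Injective τ := by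
    intro x y hxy
    have h1 := hτ x y
    rw [hxy, dist_self] at h1
    have h2 : dist x y = 0 := by
      rcases mul_eq_zero.1 h1.symm with h | h
      · exact absurd h hs.ne'
      · exact h
    exact dist_eq_zero.1 h2
  rw [conf_zero, conf_top] at hreach
  have h1 := reach_map A hreach
  -- the bijection with the vertex set
  let f : Fin m × Bool → (τ '' W : Set E3) := fun x =>
    ⟨τ (init v x), ⟨init v x, hW ▸ ⟨x, rfl⟩, rfl⟩⟩
  have hf : Function.Bijective f := by
    constructor
    · intro x y hxy
      exact hinj (hτinj (congrArg Subtype.val hxy))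
    · rintro ⟨_, w, hw, rfl⟩
      rw [← hW] at hw
      obtain ⟨x, rfl⟩ := hw
      exact ⟨x, rfl⟩
  let e := Equiv.ofBijective f hf
  have h2 := reach_reindex e h1
  have h3 : (fun i => A (init v i)) ∘ e.symm = fun w : (τ '' W : Set E3) => (w : E3) := by
    funext w
    obtain ⟨x, rfl⟩ := e.surjective w
    simp only [comp_apply, e.symm_apply_apply]
    exact (hA _).symm
  have h4 : (fun i => A (c • init v i)) ∘ e.symm =
      fun w : (τ '' W : Set E3) => A 0 + c • ((w : E3) - A 0) := by
    funext w
    obtain ⟨x, rfl⟩ := e.surjective w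
    simp only [comp_apply, e.symm_apply_apply]
    rw [affine_scale]
    have : ((e x : (τ '' W : Set E3)) : E3) = A (init v x) := hA _
    rw [this]
  rw [h3, h4] at h2
  refine ⟨_, h2, ?_, fun x => A 0 + c • (x - A 0), c, hc, ?_, ?_⟩
  · intro x y hxy
    simp only at hxy
    have h5 : c • ((x : E3) - A 0) = c • ((y : E3) - A 0) := add_left_cancel hxy
    have hc0 : c ≠ 0 := by linarith
    have h6 := smul_right_injective E3 hc0 h5
    exact Subtype.ext (sub_left_injective h6)
  · intro x y
    rw [dist_add_left, dist_smul₀, dist_sub_right, Real.norm_of_nonneg (by linarith)]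
  · ext z
    constructor
    · rintro ⟨w, rfl⟩
      exact ⟨w, w.2, rfl⟩
    · rintro ⟨w, hw, rfl⟩
      exact ⟨⟨w, hw⟩, rfl⟩

theorem one_lt_ratio : (1:ℝ) < 9 + 4 * √5 := by
  have : 0 ≤ √5 := Real.sqrt_nonneg 5
  linarith

theorem ncard_ico : icosahedron.ncard = 12 := by
  rw [← ico_range, ← Set.image_univ, Set.ncard_image_of_injective _ ico_init_injective,
    Set.ncard_univ]
  simp

theorem ncard_dod : dodecahedron.ncard = 20 := by
  rw [← dod_range, ← Set.image_univ, Set.ncard_image_of_injective _ dod_init_injective,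
    Set.ncard_univ]
  simp

end Q137.Leap
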